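import Pool.Agent.Helper7.Horo.GrowthFinal
set_option autoImplicit false

namespace Pool.Agent.Results.MP_a47ed5_al.ExpGrowth

/-- Let G be a group of exponential growth: some finite set F ⊆ G and some a > 1 are such that, for
every n, at least aⁿ elements of G are products of n elements of F. Then for every finite symmetric
generating set S of G, the metric-functional boundary of the word metric of S (the pointwise
closure of the functions z ↦ d(z,x) − d(1,x), x ∈ G, minus these functions) is uncountable. -/
theorem result (G : Type*) [Group G] (F : Set G) (hF : F.Finite) (a : ℝ) (ha : 1 < a)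
    (hgrow : ∀ n : ℕ, a ^ n ≤
      ({g : G | ∃ l : List G, l.length = n ∧ (∀ s ∈ l, s ∈ F) ∧ l.prod = g}.ncard : ℝ))
    (S : Finset G) (d : G → G → ℕ)
    (hS : ∀ s ∈ S, s⁻¹ ∈ S) (hgen : Subgroup.closure (S : Set G) = ⊤)
    (hd : ∀ z x : G, d z x =
      sInf {n : ℕ | ∃ l : List G, l.length = n ∧ (∀ s ∈ l, s ∈ S) ∧ l.prod = z⁻¹ * x}) :
    ¬ (closure (Set.range (fun x : G => fun z : G => (d z x : ℝ) - (d 1 x : ℝ))) \
          Set.range (fun x : G => fun z : G => (d z x : ℝ) - (d 1 x : ℝ))).Countable := by
  have h : Pool.Agent.Helper7.Horo.Gen S := ⟨hS, hgen⟩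
  have e : (fun x : G => fun z : G => (d z x : ℝ) - (d 1 x : ℝ)) =
      Pool.Agent.Helper7.Horo.bb S := by
    funext x z
    simp only [Pool.Agent.Helper7.Horo.bb, Pool.Agent.Helper7.Horo.len, hd, inv_one, one_mul]
  rw [e]
  exact Pool.Agent.Helper7.Horo.not_countable_of_exp h F hF a ha hgrow

end Pool.Agent.Results.MP_a47ed5_al.ExpGrowth
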