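import Pool.Agent.Helper7.Horo.VAb2
set_option autoImplicit false

namespace Pool.Agent.Results.MP_a47ed5_al.VirtuallyAbelian

/-- Let G be a group with an abelian subgroup A of finite index. Then for every finite symmetric
generating set S of G, the metric-functional boundary of the word metric of S (the pointwise
closure of the functions z ↦ d(z,x) − d(1,x), x ∈ G, minus these functions) is countable. -/
theorem result (G : Type*) [Group G] (A : Subgroup G) (hA : A.FiniteIndex)
    (hab : ∀ a ∈ A, ∀ b ∈ A, a * b = b * a)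
    (S : Finset G) (d : G → G → ℕ)
    (hS : ∀ s ∈ S, s⁻¹ ∈ S) (hgen : Subgroup.closure (S : Set G) = ⊤)
    (hd : ∀ z x : G, d z x =
      sInf {n : ℕ | ∃ l : List G, l.length = n ∧ (∀ s ∈ l, s ∈ S) ∧ l.prod = z⁻¹ * x}) :
    (closure (Set.range (fun x : G => fun z : G => (d z x : ℝ) - (d 1 x : ℝ))) \
          Set.range (fun x : G => fun z : G => (d z x : ℝ) - (d 1 x : ℝ))).Countable := by
  have h : Pool.Agent.Helper7.Horo.Gen S := ⟨hS, hgen⟩
  have e : (fun x : G => fun z : G => (d z x : ℝ) - (d 1 x : ℝ)) =
      Pool.Agent.Helper7.Horo.bb S := by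
    funext x z
    simp only [Pool.Agent.Helper7.Horo.bb, Pool.Agent.Helper7.Horo.len, hd, inv_one, one_mul]
  rw [e]
  have hfi : A.normalCore.FiniteIndex := inferInstance
  have hfin : Finite (G ⧸ A.normalCore) := inferInstance
  exact (Pool.Agent.Helper7.Horo.closure_countable A.normalCore
    (fun a ha b hb => hab a (A.normalCore_le ha) b (A.normalCore_le hb)) h).mono Set.sdiff_subset

end Pool.Agent.Results.MP_a47ed5_al.VirtuallyAbelian
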