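import Pool.Agent.Helper26.HB.All

set_option autoImplicit false

namespace Pool.Agent.Results.MP_a47ed5_al.VirtuallyClassTwo

/-- Let G be a group with a subgroup H of finite index that is nilpotent of class at most 2 (all
commutators x y x⁻¹ y⁻¹ of elements of H commute with all elements of H), but without abelian
subgroup of finite index.  Then for every finite symmetric generating set S of G the
metric-functional boundary of the word metric of S (the pointwise closure of the functions
z ↦ d(z,x) − d(1,x), x ∈ G, minus these functions) is uncountable. -/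
theorem result (G : Type) [Group G] (H : Subgroup G) (hH : H.FiniteIndex)
    (hcl : ∀ x ∈ H, ∀ y ∈ H, ∀ z ∈ H, x * y * x⁻¹ * y⁻¹ * z = z * (x * y * x⁻¹ * y⁻¹))
    (hnva : ∀ A : Subgroup G, A.FiniteIndex → ∃ x ∈ A, ∃ y ∈ A, x * y ≠ y * x)
    (S : Finset G) (d : G → G → ℕ)
    (hS : ∀ s ∈ S, s⁻¹ ∈ S) (hgen : Subgroup.closure (S : Set G) = ⊤)
    (hd : ∀ z x : G, d z x =
      sInf {n : ℕ | ∃ l : List G, l.length = n ∧ (∀ s ∈ l, s ∈ S) ∧ l.prod = z⁻¹ * x}) :
    ¬ (closure (Set.range (fun x : G => fun z : G => (d z x : ℝ) - (d 1 x : ℝ))) \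
          Set.range (fun x : G => fun z : G => (d z x : ℝ) - (d 1 x : ℝ))).Countable := by
  have h : Pool.Agent.Helper7.Horo.Gen S := ⟨hS, hgen⟩
  have e : (fun x : G => fun z : G => (d z x : ℝ) - (d 1 x : ℝ)) =
      Pool.Agent.Helper7.Horo.bb S := by
    funext x z
    simp only [Pool.Agent.Helper7.Horo.bb, Pool.Agent.Helper7.Horo.len, hd, inv_one, one_mul]
  rw [e]
  exact Pool.Agent.Helper26.HB.final G H hH hcl hnva S h

end Pool.Agent.Results.MP_a47ed5_al.VirtuallyClassTwo
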